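import Mathlib
import Pool.Agent.Helper22.RKI.St

/-!
# Project RK, part (i), module CO2
-/

set_option autoImplicit false

namespace Pool.Agent.Helper42.RKI

open Pool.Agent.Helper22.RKI

theorem hCO2 : StCO2 := by
  intro k A _ G _ D x z j h
  have hZk : D.f ^ (1 - (k : ℤ) * k) = D.Z ^ ((k : ℤ) + 1) := by
    rw [Fd.Z, ← zpow_mul]; congr 1; ring
  have hfm : ∀ (m : ℤ) (y : A), D.f ^ (-m) * D.p y = D.p (((D.two ^ m : Aˣ) : A) * y) * D.f ^ (-m) := by
    intro m y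
    have := D.fzp (-m) y
    rwa [neg_neg] at this
  -- step 1
  have h1 : D.a * D.p ((D.q : A) * x) * D.a = D.p (2 * z) * D.Z ^ (j - ((k : ℤ) + 1)) := by
    have e1 : D.f⁻¹ * (D.a * D.p x * D.a) * D.f =
        D.a * D.p ((D.q : A) * x) * D.a * D.f ^ (1 - (k : ℤ) * k) := by
      have ea : D.f⁻¹ * D.a = D.a * D.f ^ (-(k : ℤ)) := by
        have := D.fza (-1)
        rw [zpow_neg_one] at this
        rw [this]; congr 2; ring
      have eb : D.f ^ (-(k : ℤ)) * D.a = D.a * D.f ^ (-((k : ℤ) * k)) := by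
        have := D.fza (-(k : ℤ))
        rw [this]; congr 2; ring
      calc D.f⁻¹ * (D.a * D.p x * D.a) * D.f = (D.f⁻¹ * D.a) * D.p x * D.a * D.f := by group
        _ = D.a * (D.f ^ (-(k : ℤ)) * D.p x) * D.a * D.f := by rw [ea]; group
        _ = D.a * (D.p ((D.q : A) * x) * D.f ^ (-(k : ℤ))) * D.a * D.f := by rw [hfm]; rfl
        _ = D.a * D.p ((D.q : A) * x) * (D.f ^ (-(k : ℤ)) * D.a) * D.f := by group
        _ = D.a * D.p ((D.q : A) * x) * (D.a * D.f ^ (-((k : ℤ) * k))) * D.f := by rw [eb]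
        _ = D.a * D.p ((D.q : A) * x) * D.a * (D.f ^ (-((k : ℤ) * k)) * D.f ^ (1 : ℤ)) := by
            rw [zpow_one]; group
        _ = _ := by rw [← zpow_add]; congr 2; ring
    have e2 : D.f⁻¹ * (D.p z * D.Z ^ j) * D.f = D.p (2 * z) * D.Z ^ j := by
      have ec : D.f ^ (1 : ℤ) * D.Z ^ j = D.Z ^ j * D.f ^ (1 : ℤ) := D.fZ 1 j
      rw [zpow_one] at ec
      calc D.f⁻¹ * (D.p z * D.Z ^ j) * D.f = (D.f⁻¹ * D.p z * D.f) * (D.f⁻¹ * (D.Z ^ j * D.f)) := by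
            group
        _ = D.p (2 * z) * (D.f⁻¹ * (D.f * D.Z ^ j)) := by rw [D.pf, ec]
        _ = D.p (2 * z) * D.Z ^ j := by group
    rw [h, e2, hZk] at e1
    calc D.a * D.p ((D.q : A) * x) * D.a
        = (D.a * D.p ((D.q : A) * x) * D.a * D.Z ^ ((k : ℤ) + 1)) * D.Z ^ (-((k : ℤ) + 1)) := by
          rw [mul_assoc (D.a * D.p ((D.q : A) * x) * D.a), ← zpow_add, add_neg_cancel, zpow_zero, mul_one]
      _ = D.p (2 * z) * D.Z ^ j * D.Z ^ (-((k : ℤ) + 1)) := by rw [← e1]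
      _ = _ := by rw [mul_assoc, ← zpow_add]; congr 2
  -- step 2
  set z' : A := ((D.c ^ (-j) : Aˣ) : A) * z with hz'
  set W : G := D.Z ^ (-((k : ℤ) + 1)) with hW
  have h2 : D.a⁻¹ * D.p (((D.q : A) - 1) * x) * D.a = D.p z' * W := by
    have e0 : ((D.q : A) - 1) * x = -x + (D.q : A) * x := by ring
    have e3 : -z + 2 * z = z := by ring
    calc D.a⁻¹ * D.p (((D.q : A) - 1) * x) * D.a
        = D.a⁻¹ * ((D.p x)⁻¹ * D.p ((D.q : A) * x)) * D.a := by rw [e0, D.p_add, D.pneg]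
      _ = (D.a * D.p x * D.a)⁻¹ * (D.a * D.p ((D.q : A) * x) * D.a) := by group
      _ = (D.p z * D.Z ^ j)⁻¹ * (D.p (2 * z) * D.Z ^ (j - ((k : ℤ) + 1))) := by rw [h, h1]
      _ = D.Z ^ (-j) * ((D.p z)⁻¹ * D.p (2 * z)) * D.Z ^ (j - ((k : ℤ) + 1)) := by group
      _ = D.Z ^ (-j) * D.p z * D.Z ^ (j - ((k : ℤ) + 1)) := by rw [← D.pneg, ← D.p_add, e3]
      _ = D.p z' * D.Z ^ (-j) * D.Z ^ (j - ((k : ℤ) + 1)) := by rw [D.Zp]
      _ = D.p z' * W := by rw [mul_assoc, ← zpow_add]; congr 2; ring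
  -- step 3
  have hs2 : ∀ y : A, D.a⁻¹ * D.p (2 * y) * D.a =
      D.f ^ (-(k : ℤ)) * (D.a⁻¹ * D.p y * D.a) * D.f ^ (k : ℤ) := by
    intro y
    have ek : D.f ^ (k : ℤ) = D.a⁻¹ * D.f * D.a := by rw [D.fa, zpow_natCast]
    have ek2 : D.f ^ (-(k : ℤ)) = D.a⁻¹ * D.f⁻¹ * D.a := by rw [zpow_neg, ek]; group
    rw [ek, ek2, ← D.pf]; group
  have hfW : ∀ m : ℤ, D.f ^ m * W = W * D.f ^ m := fun m => D.fZ m _
  have h3 : D.p z' * W * (D.p z' * W) = D.p ((D.q : A) * z') * W := by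
    have e4 : D.a⁻¹ * D.p (2 * (((D.q : A) - 1) * x)) * D.a = D.p z' * W * (D.p z' * W) := by
      rw [← h2, two_mul, D.p_add]; group
    rw [← e4, hs2, h2]
    calc D.f ^ (-(k : ℤ)) * (D.p z' * W) * D.f ^ (k : ℤ)
        = (D.f ^ (-(k : ℤ)) * D.p z') * (W * D.f ^ (k : ℤ)) := by group
      _ = (D.p ((D.q : A) * z') * D.f ^ (-(k : ℤ))) * (D.f ^ (k : ℤ) * W) := by rw [hfm, hfW]; rfl
      _ = D.p ((D.q : A) * z') * W := by group
  have hWp : ∀ y, W * D.p y = D.p (((D.c ^ (-((k : ℤ) + 1)) : Aˣ) : A) * y) * W := fun y => D.Zp _ y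
  have h4 : D.p (z' + ((D.c ^ (-((k : ℤ) + 1)) : Aˣ) : A) * z') * W = D.p ((D.q : A) * z') := by
    have e5 : D.p z' * W * (D.p z' * W) = D.p (z' + ((D.c ^ (-((k : ℤ) + 1)) : Aˣ) : A) * z') * W * W := by
      calc D.p z' * W * (D.p z' * W) = D.p z' * (W * D.p z') * W := by group
        _ = _ := by rw [hWp, D.p_add]; group
    rw [e5] at h3
    exact mul_right_cancel h3
  have hWu : ∃ u : A, W = D.p u := by
    refine ⟨-(z' + ((D.c ^ (-((k : ℤ) + 1)) : Aˣ) : A) * z') + (D.q : A) * z', ?_⟩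
    rw [D.p_add, ← h4, D.pneg]; group
  obtain ⟨u, hu⟩ := hWu
  have hW1 : W = 1 := by
    have e6 : D.f⁻¹ * W * D.f = W := by
      have := hfW 1
      rw [zpow_one] at this
      calc D.f⁻¹ * W * D.f = D.f⁻¹ * (W * D.f) := by group
        _ = D.f⁻¹ * (D.f * W) := by rw [this]
        _ = W := by group
    rw [hu, D.pf, two_mul, D.p_add] at e6
    have e7 : D.p u = 1 := by
      have : D.p u * D.p u = D.p u * 1 := by rw [mul_one]; exact e6
      exact mul_left_cancel this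
    rw [hu, e7]
  refine ⟨?_, ?_⟩
  · rw [hW, zpow_neg, inv_eq_one] at hW1
    exact hW1
  · have e8 : D.p (((D.c ^ (-((k : ℤ) + 1)) : Aˣ) : A) * z') = D.p z' := by
      have := hWp z'
      rw [hW1, one_mul, mul_one] at this
      exact this.symm
    rw [hW1, mul_one, D.p_add, e8] at h4
    -- `q - 2` is an integer
    have hq : (D.q : A) - 2 = (((2 : ℤ) ^ k - 2 : ℤ) : A) := by
      rw [Fd.q, zpow_natCast, Units.val_pow_eq_pow_val, D.htwo]; push_cast; ring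
    have e9 : D.p (((D.q : A) - 2) * z') = 1 := by
      have : ((D.q : A) - 2) * z' = (D.q : A) * z' - (z' + z') := by ring
      rw [this, D.psub, D.p_add, h4]; group
    rw [hq, D.pint] at e9
    rw [hq, D.pint]
    have e10 : D.p (((D.q : A) - 1) * x) = D.a * D.p z' * D.a⁻¹ := by
      rw [hW1, mul_one] at h2
      rw [← h2]; group
    rw [e10]
    have e11 : (D.a * D.p z' * D.a⁻¹) ^ ((2 : ℤ) ^ k - 2) = D.a * D.p z' ^ ((2 : ℤ) ^ k - 2) * D.a⁻¹ := by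
      have := (map_zpow (MulAut.conj D.a) (D.p z') ((2 : ℤ) ^ k - 2))
      simpa [MulAut.conj_apply] using this.symm
    rw [e11, e9]; group

end Pool.Agent.Helper42.RKI
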